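import Pool.Agent.Lib.FK60.Combi
import Pool.Agent.Lib.MP_4d5ce1_nt.Count
import Pool.Agent.Lib.MP_4d5ce1_nt.BFin
import Pool.Agent.Lib.FK60.BilSide
import Pool.Agent.Lib.MP_4d5ce1_nt.LB.Lower
import Pool.Agent.Lib.MP_4d5ce1_nt.Lv.Upper

section

/-!
Counting points of the projective line over a number field with a small truncated counting
function for three points: the ordinary configurations.
-/

set_option autoImplicit false

open NumberField IsDedekindDomain Finset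

namespace Pool.Agent.Lib.CO60

open Pool.Agent.Lib.MP_4d5ce1_nt

variable {K : Type*} [Field K] [NumberField K]

/-- The block configuration of `x` is close to an exceptional one. -/
def NearExc (α : Fin 3 → K × K) (bad : Finset (HeightOneSpectrum (𝓞 K))) (E : ℕ)
    (κ L ε ρ : ℝ) (x : K × K) : Prop :=
  ∃ q ∈ FK60.Adm E κ L, FK60.Exc E q ∧
    (∀ a, |FK60.bS (suppF α bad x) (labF α x) (expF α x) lnv E a - ρ * q.S a| < ε * ρ) ∧
    (∀ a, |FK60.bJ (suppF α bad x) (labF α x) (expF α x) lnv E a - ρ * q.J a| < ε * ρ) ∧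
    ∀ l, idxF α bad x l < ε * ρ

/-- The conditions on the points to be counted. -/
def InW (α : Fin 3 → K × K) (bad : Finset (HeightOneSpectrum (𝓞 K))) (κ L ρ : ℝ)
    (x : K × K) : Prop :=
  (∀ l, wedge x (α l) ≠ 0) ∧ ∑ v ∈ suppF α bad x, lnv v ≤ 3 * ρ ∧ κ * ρ ≤ hh x ∧
    hh x ≤ L * ρ

/-- The constant of the first main theorem. -/
noncomputable def cF (α : Fin 3 → K × K) : ℝ := ∑ l, |hh (α l)| + Module.finrank ℚ K

lemma cF_pos (α : Fin 3 → K × K) : 0 < cF α := by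
  unfold cF
  have h1 : 0 ≤ ∑ l, |hh (α l)| := Finset.sum_nonneg fun l _ => abs_nonneg _
  have h2 : (0:ℝ) < Module.finrank ℚ K := by exact_mod_cast finrank_pos'
  linarith

lemma fmt_le {α : Fin 3 → K × K} {bad : Finset (HeightOneSpectrum (𝓞 K))}
    (hα : ∀ l m, l ≠ m → wedge (α l) (α m) ≠ 0) (hbad : GoodOff α bad) {x : K × K}
    (hx : ∀ l, wedge x (α l) ≠ 0) (l : Fin 3) :
    |∑ v ∈ suppF α bad x with labF α x v = l, (expF α x v : ℝ) * lnv v +
      idxF α bad x l - hh x| ≤ cF α := by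
  have h1 := config_fmt hα hbad hx l
  have h2 : |hh (α l)| ≤ ∑ l, |hh (α l)| :=
    Finset.single_le_sum (f := fun l => |hh (α l)|) (fun l _ => abs_nonneg _)
      (Finset.mem_univ l)
  unfold cF
  refine (le_trans (le_of_eq ?_) h1).trans (by linarith)
  congr!

/-- Counting the points which are not close to exceptional ones. -/
theorem count_ordinary {α : Fin 3 → K × K} {bad : Finset (HeightOneSpectrum (𝓞 K))}
    (hα : ∀ l m, l ≠ m → wedge (α l) (α m) ≠ 0) (hbad : GoodOff α bad)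
    {L κ : ℝ} (hκ : 1 < κ) {E : ℕ} (hE : 16 * (L + 1) ^ 2 + 4 ≤ E) (ε : ℝ)
    (hε : 0 < ε) : ∃ δ : ℝ, 0 < δ ∧ δ ≤ 1 ∧ ∃ C : ℝ, 0 < C ∧ ∀ (ρ : ℝ) (X : Finset (K × K)),
      cF α ≤ ρ → (∀ x ∈ X, ∀ y ∈ X, x ≠ y → wedge x y ≠ 0) →
      (∀ x ∈ X, InW α bad κ L ρ x ∧ ¬ NearExc α bad E κ (L + 1) ε ρ x) →
      (X.card : ℝ) ≤ C * Real.exp ((2 - δ) * ρ) := by
  classical
  obtain ⟨δ₀, hδ₀, hcomb⟩ := FK60.combi_cases (ι := HeightOneSpectrum (𝓞 K)) (E := E)
    (K := L + 1) hκ hE ε hε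
  obtain ⟨δ, hδdef⟩ : ∃ δ : ℝ, δ = min δ₀ 1 / 2 := ⟨_, rfl⟩
  have hδpos : 0 < δ := by
    rw [hδdef]
    have : 0 < min δ₀ 1 := lt_min hδ₀ one_pos
    linarith
  have hδ1 : δ ≤ 1 := by
    rw [hδdef]
    have : min δ₀ 1 ≤ 1 := min_le_right _ _
    linarith
  have h2δ : 2 * δ ≤ δ₀ := by
    rw [hδdef]
    have : min δ₀ 1 ≤ δ₀ := min_le_left _ _
    linarith
  obtain ⟨η, hη⟩ : ∃ η : ℝ, η = δ / (|L| + 1) := ⟨_, rfl⟩
  have hη0 : 0 < η := by rw [hη]; positivity
  have hηK : η * L ≤ δ := by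
    rw [hη, div_mul_eq_mul_div, div_le_iff₀ (by positivity)]
    apply mul_le_mul_of_nonneg_left _ hδpos.le
    linarith [le_abs_self L]
  have hm : ∀ t : Fin E × Fin 3 × Fin 3, ∃ C : ℝ, 0 < C ∧ (t.2.1 ≠ t.2.2 →
      ∀ (β z : ℝ) (X : Finset (K × K)),
      (∀ x ∈ X, ∀ l, wedge x (α l) ≠ 0) →
      (∀ x ∈ X, ∀ y ∈ X, x ≠ y → wedge x y ≠ 0) →
      (∀ x ∈ X, hh x ≤ β) →
      (∀ x ∈ X, ∃ W : Finset (HeightOneSpectrum (𝓞 K)), W ⊆ suppF α bad x ∧
        (∀ v ∈ suppF α bad x, v ∉ W → (labF α x v = t.2.1 ∨ labF α x v = t.2.2) →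
          ((t.1 : ℕ) + 1) ∣ expF α x v) ∧
        toolCost (suppF α bad x) (labF α x) (expF α x) lnv (idxF α bad x) ((t.1 : ℕ) + 1)
          t.2.1 t.2.2 W ≤ z) →
      (X.card : ℝ) ≤ C * Real.exp (z + η * β)) := by
    intro t
    by_cases ht : t.2.1 = t.2.2
    · exact ⟨1, one_pos, fun h => absurd ht h⟩
    · obtain ⟨C, hC, h⟩ := master α hα bad hbad ((t.1 : ℕ) + 1) (by omega) t.2.1 t.2.2
        ht η hη0
      exact ⟨C, hC, fun _ => h⟩
  choose C hC hmC using hm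
  have hcF := cF_pos α
  refine ⟨δ, hδpos, hδ1, (∑ t, C t + 1) * Real.exp (2 * cF α), ?_, ?_⟩
  · have : 0 ≤ ∑ t, C t := Finset.sum_nonneg fun t _ => (hC t).le
    positivity
  intro ρ X hρ hXX hX
  have hρ0 : 0 < ρ := hcF.trans_le hρ
  -- tools
  have htool : ∀ x ∈ X, HasTool (suppF α bad x) (labF α x) (expF α x) lnv
      (idxF α bad x) E ((2 - δ₀) * ρ + 2 * cF α) := by
    intro x hx
    obtain ⟨⟨hxw, hrad, hlow, hup⟩, hne⟩ := hX x hx
    have h1 := hcomb (suppF α bad x) (labF α x) (expF α x) lnv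
      (idxF α bad x) ρ (hh x) (cF α) hρ0 hcF.le
      (fun v hv => ⟨exp_pos_of_mem hxw hv, (lnv_pos v).le⟩)
      (fun l => idxF_nonneg α bad x l)
      (fun l => by
        have := fmt_le hα hbad hxw l
        refine (le_of_eq ?_).trans this
        congr!)
      hrad hlow (by linarith)
    rcases h1 with h1 | ⟨q, hq, hexc, hS, hJ, hy⟩
    · exact h1
    · exfalso
      apply hne
      refine ⟨q, hq, hexc, fun a => ?_, fun a => ?_, hy⟩
      · exact hS a
      · exact hJ a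
  -- the classes
  obtain ⟨Y, hY⟩ : ∃ Y : Fin E × Fin 3 × Fin 3 → Finset (K × K), Y = fun t =>
    if t.2.1 = t.2.2 then ∅ else X.filter fun x =>
      ∃ W : Finset (HeightOneSpectrum (𝓞 K)), W ⊆ suppF α bad x ∧
        (∀ v ∈ suppF α bad x, v ∉ W →
          (labF α x v = t.2.1 ∨ labF α x v = t.2.2) →
          ((t.1 : ℕ) + 1) ∣ expF α x v) ∧
        toolCost (suppF α bad x) (labF α x) (expF α x) lnv
          (idxF α bad x) ((t.1 : ℕ) + 1) t.2.1 t.2.2 W ≤ (2 - δ₀) * ρ + 2 * cF α := ⟨_, rfl⟩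
  have hcov : X ⊆ Finset.univ.biUnion Y := by
    intro x hx
    obtain ⟨n, hn1, hnE, i, j, hij, W, hW, hdvd, hcost⟩ := htool x hx
    rw [Finset.mem_biUnion]
    have hn' : n - 1 + 1 = n := by omega
    refine ⟨(⟨n - 1, by omega⟩, i, j), Finset.mem_univ _, ?_⟩
    rw [hY]
    simp only
    rw [if_neg hij, Finset.mem_filter]
    refine ⟨hx, W, hW, ?_, ?_⟩
    · rw [hn']; exact hdvd
    · rw [hn']; exact hcost
  have hYc : ∀ t, ((Y t).card : ℝ) ≤ C t * (Real.exp (2 * cF α) * Real.exp ((2 - δ) * ρ)) := by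
    intro t
    by_cases ht : t.2.1 = t.2.2
    · have : Y t = ∅ := by rw [hY]; simp only; rw [if_pos ht]
      rw [this, Finset.card_empty, Nat.cast_zero]
      exact mul_nonneg (hC t).le (by positivity)
    · have hYt : ∀ x ∈ Y t, x ∈ X ∧ ∃ W : Finset (HeightOneSpectrum (𝓞 K)),
          W ⊆ suppF α bad x ∧
          (∀ v ∈ suppF α bad x, v ∉ W →
            (labF α x v = t.2.1 ∨ labF α x v = t.2.2) →
            ((t.1 : ℕ) + 1) ∣ expF α x v) ∧
          toolCost (suppF α bad x) (labF α x) (expF α x) lnv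
            (idxF α bad x) ((t.1 : ℕ) + 1) t.2.1 t.2.2 W ≤ (2 - δ₀) * ρ + 2 * cF α := by
        intro x hx
        rw [hY] at hx
        simp only at hx
        rw [if_neg ht, Finset.mem_filter] at hx
        exact hx
      have h1 := hmC t ht (L * ρ) ((2 - δ₀) * ρ + 2 * cF α) (Y t)
        (fun x hx => (hX x (hYt x hx).1).1.1)
        (fun x hx y hy => hXX x (hYt x hx).1 y (hYt y hy).1)
        (fun x hx => (hX x (hYt x hx).1).1.2.2.2)
        (fun x hx => (hYt x hx).2)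
      refine h1.trans ?_
      apply mul_le_mul_of_nonneg_left _ (hC t).le
      rw [← Real.exp_add]
      apply Real.exp_le_exp.mpr
      have h2 : η * (L * ρ) ≤ δ * ρ := by
        rw [← mul_assoc]
        exact mul_le_mul_of_nonneg_right hηK hρ0.le
      have h3 : 2 * δ * ρ ≤ δ₀ * ρ := mul_le_mul_of_nonneg_right h2δ hρ0.le
      linarith
  have h1 : (X.card : ℝ) ≤ ∑ t, ((Y t).card : ℝ) := by
    have h2 := (Finset.card_le_card hcov).trans Finset.card_biUnion_le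
    exact_mod_cast h2
  refine h1.trans ((Finset.sum_le_sum fun t _ => hYc t).trans ?_)
  rw [← Finset.sum_mul, mul_assoc]
  apply mul_le_mul_of_nonneg_right _ (by positivity)
  linarith

end Pool.Agent.Lib.CO60
end

section

/-!
The number of points near an exceptional configuration.
-/

set_option autoImplicit false

open NumberField IsDedekindDomain Finset

namespace Pool.Agent.Lib.CO60

open Pool.Agent.Lib.MP_4d5ce1_nt Pool.Agent.Lib.FK60

variable {K : Type*} [Field K] [NumberField K]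

open Classical in
/-- The number of points near an exceptional configuration. -/
theorem cell_exc {α : Fin 3 → K × K} {bad : Finset (HeightOneSpectrum (𝓞 K))}
    (hα : ∀ l m, l ≠ m → wedge (α l) (α m) ≠ 0) (hbad : GoodOff α bad) {E M : ℕ} (G : Fin 3 → Finset ℕ) (hM : 2 ≤ M) (hcard : ∀ l, (G l).card = M)
    (hG : ∀ l, ∀ b ∈ G l, 1 ≤ b ∧ b + 1 < E) (η : ℝ) (hη : 0 < η) :
    ∃ C δ R₀ : ℝ, 0 < C ∧ 0 < δ ∧ 1 ≤ R₀ ∧ ∀ (β r : ℝ) (X : Finset (K × K)), R₀ ≤ r →
      (∀ x ∈ X, ∀ l, wedge x (α l) ≠ 0) →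
      (∀ x ∈ X, ∀ y ∈ X, x ≠ y → wedge x y ≠ 0) →
      (∀ x ∈ X, hh x ≤ β) →
      (∀ x ∈ X, Close E δ (qc E α bad r x) (xc M G)) →
      (X.card : ℝ) ≤ C * Real.exp (((2 * M - 1) / M + η) * r + η * β) := by
  have hM0 : (0 : ℝ) < M := by
    have : 0 < M := by omega
    exact_mod_cast this
  have hM2 : (2 : ℝ) ≤ M := by exact_mod_cast hM
  have hne : ∀ l, (G l).Nonempty := fun l => by
    rw [← Finset.card_pos, hcard]
    omega
  obtain ⟨t₀, ht₀⟩ := hne 0
  have hE : 2 ≤ E := by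
    have := (hG 0 t₀ ht₀)
    omega
  have hE' : (2 : ℝ) ≤ E := by exact_mod_cast hE
  obtain ⟨Cp, hCp, hpair⟩ := pair_PD (K := K) hE α hα bad hbad
    (fin3_succ 0).1 (fin3_succ 0).2.1 (fin3_succ 0).2.2
  obtain ⟨Cb, hCb, hbil⟩ := bilStmt K 3 α hα bad hbad (0 + 1) (0 + 2)
    (fin3_succ 0).1 E η hη
  obtain ⟨ε, hεdef⟩ : ∃ ε : ℝ, ε = η / (8 * E) := ⟨_, rfl⟩
  have hε0 : 0 < ε := by rw [hεdef]; positivity
  have hεη : 8 * (E * ε) = η := by rw [hεdef]; field_simp
  obtain ⟨δ, hδdef⟩ : ∃ δ : ℝ, δ = ε / (12 * E ^ 2) := ⟨_, rfl⟩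
  have hδ0 : 0 < δ := by rw [hδdef]; positivity
  have hδε : 12 * ((E : ℝ) ^ 2 * δ) = ε := by rw [hδdef]; field_simp
  have hEδ : 0 < (E : ℝ) ^ 2 * δ := by positivity
  have hεE : 2 * ε ≤ E * ε := mul_le_mul_of_nonneg_right hE' hε0.le
  refine ⟨Cb * Real.exp Cp, δ, max 1 (2 * Cp / ε), by positivity, hδ0, le_max_left _ _, ?_⟩
  intro β r X hrR hX hXX hXβ hcl
  have hr1 : 1 ≤ r := (le_max_left _ _).trans hrR
  have hr0 : 0 < r := by linarith
  have hrC : Cp / r ≤ ε / 2 := by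
    have h1 := (le_max_right _ _).trans hrR
    rw [div_le_iff₀ hε0] at h1
    rw [div_le_iff₀ hr0]
    linarith
  have hεC : 3 * (E : ℝ) ^ 2 * δ + Cp / r ≤ ε := by linarith
  obtain ⟨U, hU⟩ : ∃ U : Fin 3 → ℕ → Bool, U = fun l b => decide (l = 0 + 1 ∧ b ∈ G l) := ⟨_, rfl⟩
  obtain ⟨A, hA⟩ : ∃ A : Fin 3 → ℕ → Bool, A = fun l b => !(U l b) := ⟨_, rfl⟩
  obtain ⟨T, hT⟩ : ∃ T : ℕ → Bool, T = fun b => decide (b = t₀) := ⟨_, rfl⟩
  have hUA : ∀ l b, A l b = !(U l b) := fun l b => by rw [hA]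
  have hAU : ∀ l b, U l b = !(A l b) := fun l b => by rw [hUA, Bool.not_not]
  have hU' : ∀ l b, U l b = decide (l = 0 + 1 ∧ b ∈ G l) := fun l b => by rw [hU]
  have hT' : T t₀ = true := by rw [hT]; simp
  have hsideU : GoodSide E ε (xc M G) 0 U T ((2 * M - 1) / M + (4 * E + 2) * ε) := by
    refine good_side G hM hcard hG hε0.le U T 0 (0 + 1) (by decide) ?_ ?_ t₀ ht₀ hT'
    · intro b hb
      rw [hU']
      simpa using hb
    · intro l _ hl b _
      rw [hU']
      simp only [decide_eq_false_iff_not]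
      exact fun h => hl h.1
  have hsideV : GoodSide E ε (xc M G) 0 A T ((2 * M - 1) / M + (4 * E + 2) * ε) := by
    refine good_side G hM hcard hG hε0.le A T 0 (0 + 2) (by decide) ?_ ?_ t₀ ht₀ hT'
    · intro b _
      rw [hUA, hU']
      simp
    · intro l hl1 hl2 b hb
      have hl3 : l = 0 + 1 := by
        clear hb
        revert l
        decide
      subst hl3
      rw [hUA, hU']
      simpa using hb
  obtain ⟨m, hm⟩ : ∃ m : ℝ, m = ((2 * M - 1) / M + η) * r + Cp := ⟨_, rfl⟩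
  have hθ0 : 0 ≤ (2 * (M : ℝ) - 1) / M := by
    apply div_nonneg _ hM0.le
    linarith
  have hm0 : 0 ≤ m := by rw [hm]; positivity
  have hz : r * ((2 * M - 1) / M + (4 * E + 2) * ε + 20 * (E : ℝ) ^ 2 * δ) + Cp ≤ m := by
    rw [hm]
    have h1 : (4 * (E : ℝ) + 2) * ε + 20 * (E : ℝ) ^ 2 * δ ≤ η := by linarith
    have h2 := mul_le_mul_of_nonneg_left h1 hr0.le
    linarith
  have hcount := hbil β m m X (aset E α bad 0 U) (aset E α bad 0 A) (tset E α bad 0 T)
    hm0 hm0 hX hXX hXβ ?_ ?_ ?_ ?_ ?_ ?_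
  · have e1 : max m ((m + m) / 2) = m := by
      rw [max_eq_left]
      linarith
    rw [e1] at hcount
    refine hcount.trans (le_of_eq ?_)
    rw [hm, mul_assoc, ← Real.exp_add]
    congr 2
    ring
  · intro x _
    rw [Finset.disjoint_left]
    intro v hv hv'
    have h1 := (mem_aset.mp hv).2.2
    have h2 := (mem_aset.mp hv').2.2
    rw [hAU, h2] at h1
    exact absurd h1 (by simp)
  · intro x _
    ext v
    rw [Finset.mem_union, mem_aset, mem_aset, Finset.mem_filter,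
      ne_iff_or (fin3_succ 0).1 (fin3_succ 0).2.1 (fin3_succ 0).2.2]
    constructor
    · rintro (⟨h1, h2, _⟩ | ⟨h1, h2, _⟩) <;> exact ⟨h1, h2⟩
    · rintro ⟨h1, h2⟩
      by_cases h3 : U (labF α x v) (blk E (expF α x v)) = true
      · exact Or.inl ⟨h1, h2, h3⟩
      · refine Or.inr ⟨h1, h2, ?_⟩
        rw [hUA]
        simpa using h3
  · intro x _ v hv
    rw [Finset.mem_filter, ne_and_iff (fin3_succ 0).1 (fin3_succ 0).2.1 (fin3_succ 0).2.2]
    exact ⟨(mem_tset.mp hv).1, (mem_tset.mp hv).2.1⟩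
  · intro x hx
    have h1 := sum_blocks_close hE hr0 (suppF α bad x) (labF α x) (expF α x) lnv
      (idxF α bad x) hδ0.le (hcl x hx) 0 U T (fun v => (lnv_pos v).le)
    have h2 : ∑ v ∈ aset E α bad 0 A x ∪ tset E α bad 0 T x, lnv v =
      ∑ v ∈ (suppF α bad x).filter (fun v => labF α x v ≠ 0 ∧
        (!(U (labF α x v) (blk E (expF α x v)))) = true) ∪
      (suppF α bad x).filter (fun v => labF α x v = 0 ∧ T (blk E (expF α x v)) = true),
        lnv v := by
      rw [hA]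
      rfl
    rw [h2]
    refine h1.trans ?_
    have c1 : ∑ l ∈ univ.filter (fun l : Fin 3 => l ≠ 0), ∑ b ∈ range E,
        (if U l b then 0 else (xc M G).S l b) = 1 := by
      rw [Finset.sum_eq_single 2]
      · have e1 : ∀ b ∈ range E, (if U 2 b then 0 else (xc M G).S 2 b) =
            if b ∈ G 2 then 1 / (M : ℝ) else 0 := by
          intro b _
          have : U 2 b = false := by
            rw [hU']
            simp
          rw [this]
          rfl
        rw [Finset.sum_congr rfl e1, ← Finset.sum_filter, Finset.sum_const]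
        have e2 : (range E).filter (fun b => b ∈ G 2) = G 2 := by
          ext b
          rw [Finset.mem_filter, Finset.mem_range]
          exact ⟨fun h => h.2, fun h => ⟨by have := (hG 2 b h).2; omega, h⟩⟩
        rw [e2, hcard, nsmul_eq_mul]
        field_simp
      · intro l hl hl2
        have hl0 := (Finset.mem_filter.mp hl).2
        have hl1 : l = 1 := by
          clear hl
          revert l
          decide
        subst hl1
        apply Finset.sum_eq_zero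
        intro b _
        by_cases hb : b ∈ G 1
        · rw [hU']
          simp [hb]
        · have : (xc M G).S 1 b = 0 := if_neg hb
          rw [this]
          simp
      · intro h
        exact absurd (show (2 : Fin 3) ∈ univ.filter (fun l : Fin 3 => l ≠ 0) by decide) h
    have c2 : ∑ b ∈ range E, (if T b then (xc M G).S 0 b else 0) = 1 / (M : ℝ) := by
      rw [Finset.sum_eq_single t₀]
      · rw [hT']
        have : (xc M G).S 0 t₀ = 1 / (M : ℝ) := if_pos ht₀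
        rw [this]
        simp
      · intro b _ hb
        rw [hT]
        simp [hb]
      · intro h
        exact absurd (Finset.mem_range.mpr (by have := (hG 0 t₀ ht₀).2; omega)) h
    rw [c1, c2]
    refine le_trans ?_ hz
    have c3 : 1 + 1 / (M : ℝ) ≤ (2 * M - 1) / M := by
      rw [le_div_iff₀ hM0]
      field_simp
      linarith
    have c4 : (E : ℝ) * δ ≤ (E : ℝ) ^ 2 * δ :=
      mul_le_mul_of_nonneg_right (le_self_pow₀ (by linarith) two_ne_zero) hδ0.le
    have c5 : 0 ≤ (E : ℝ) * ε := by positivity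
    have c6 : 1 + 1 / (M : ℝ) + 4 * (E * δ) ≤
        (2 * M - 1) / M + (4 * E + 2) * ε + 20 * (E : ℝ) ^ 2 * δ := by linarith
    have c7 := mul_le_mul_of_nonneg_left c6 hr0.le
    linarith
  · -- V side
    intro x hx x' hx' hcd hcd'
    have hne' : wedge x x' ≠ 0 := by
      apply hXX x hx x' hx'
      rintro rfl
      exact hcd' rfl
    have hPD := hpair A U T hAU x x' (hX x hx) (hX x' hx') hne' hcd
    exact side_tool hE α bad A U T x x' hPD hr0 hδ0.le (hcl x hx) (hcl x' hx') hεC hsideV hz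
  · -- U side
    intro x hx x' hx' hcd hcd'
    have hne' : wedge x x' ≠ 0 := by
      apply hXX x hx x' hx'
      rintro rfl
      exact hcd' rfl
    have hPD := hpair U A T hUA x x' (hX x hx) (hX x' hx') hne' hcd
    exact side_tool hE α bad U A T x x' hPD hr0 hδ0.le (hcl x hx) (hcl x' hx') hεC hsideU hz

end Pool.Agent.Lib.CO60
end

section

/-!
Counting the points with a small truncated counting function near the exceptional
configurations; the counting theorem for three points.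
-/

set_option autoImplicit false

open NumberField IsDedekindDomain Finset

namespace Pool.Agent.Lib.CO60

open Pool.Agent.Lib.MP_4d5ce1_nt

variable {K : Type*} [Field K] [NumberField K]

/-- The blocks in the numbering from `0`. -/
def sh {E : ℕ} (F : Finset (Fin (E + 1))) : Finset ℕ :=
  F.image fun i : Fin (E + 1) => (i : ℕ) - 1

lemma mem_sh {E : ℕ} {F : Finset (Fin (E + 1))} (hF : ∀ i ∈ F, 2 ≤ (i : ℕ) ∧ (i : ℕ) < E) {b : ℕ}
    (hb : b < E) : b ∈ sh F ↔ (⟨b + 1, by omega⟩ : Fin (E + 1)) ∈ F := by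
  unfold sh
  rw [Finset.mem_image]
  constructor
  · rintro ⟨i, hi, h⟩
    have := hF i hi
    have h2 : (⟨b + 1, by omega⟩ : Fin (E + 1)) = i := by
      ext
      simp only
      omega
    rw [h2]
    exact hi
  · intro h
    exact ⟨_, h, by simp⟩

lemma card_sh {E : ℕ} {F : Finset (Fin (E + 1))} (hF : ∀ i ∈ F, 2 ≤ (i : ℕ) ∧ (i : ℕ) < E) :
    (sh F).card = F.card := by
  unfold sh
  apply Finset.card_image_of_injOn
  intro i hi j hj h
  have h1 := hF i hi
  have h2 := hF j hj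
  ext
  simp only at h
  omega

lemma bs_eq_bS {ι : Type*} {E : ℕ} (hE : 2 ≤ E) (P : Finset ι) (lab : ι → Fin 3) (e : ι → ℕ)
    (f : ι → ℝ) (he : ∀ v ∈ P, 1 ≤ e v) (l : Fin 3) (b : ℕ) (hb : b < E) :
    bs E P lab e f l b = FK60.bS P lab e f E (l, ⟨b + 1, by omega⟩) := by
  unfold bs FK60.bS
  apply Finset.sum_congr _ fun _ _ => rfl
  ext v
  rw [Finset.mem_filter, Finset.mem_filter]
  apply and_congr_right
  intro hv
  have h1 := he v hv
  unfold Pool.Agent.Lib.FK60.blk Pool.Agent.Lib.MP_4d5ce1_nt.blk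
  rw [Prod.mk.injEq]
  apply and_congr_right
  intro _
  rw [Fin.ext_iff]
  simp only
  constructor
  · intro h
    omega
  · intro h
    omega

/-- Points near the exceptional configuration `F` of size `M`. -/
lemma close_of_near {α : Fin 3 → K × K} {bad : Finset (HeightOneSpectrum (𝓞 K))} {E M : ℕ}
    {ε ρ : ℝ} (hE : 2 ≤ E) (hρ : 0 < ρ) {x : K × K}
    (hx : ∀ l, wedge x (α l) ≠ 0) {F : Fin 3 → Finset (Fin (E + 1))}
    (hF : ∀ l, ∀ i ∈ F l, 2 ≤ (i : ℕ) ∧ (i : ℕ) < E) {q : FK60.BC E}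
    (hqS : ∀ l, ∀ i, q.S (l, i) = if i ∈ F l then 1 / (M : ℝ) else 0)
    (hqJ : ∀ l, q.J (l, Fin.last E) = 0)
    (hS : ∀ a, |FK60.bS (suppF α bad x) (labF α x) (expF α x) lnv E a -
      ρ * q.S a| < ε * ρ)
    (hJ : ∀ a, |FK60.bJ (suppF α bad x) (labF α x) (expF α x) lnv E a -
      ρ * q.J a| < ε * ρ)
    (hI : ∀ l, idxF α bad x l < ε * ρ) :
    Close E (2 * ε) (qc E α bad ρ x) (FK60.xc M fun l => sh (F l)) := by
  have he : ∀ v ∈ suppF α bad x, 1 ≤ expF α x v := fun v hv =>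
    exp_pos_of_mem hx hv
  have hε : 0 < ε := by
    have h1 := (abs_nonneg _).trans_lt (hS (0, 0))
    exact (mul_pos_iff_of_pos_right hρ).mp h1
  constructor
  · intro l b hb
    have hb' := Finset.mem_range.mp hb
    have h1 : (qc E α bad ρ x).S l b = FK60.bS (suppF α bad x) (labF α x)
        (expF α x) lnv E (l, ⟨b + 1, by omega⟩) / ρ := by
      rw [← bs_eq_bS hE _ _ _ _ he l b hb']
      rfl
    have h2 : (FK60.xc M fun l => sh (F l)).S l b = q.S (l, ⟨b + 1, by omega⟩) := by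
      rw [hqS]
      by_cases hc : (⟨b + 1, by omega⟩ : Fin (E + 1)) ∈ F l
      · rw [if_pos hc]
        exact if_pos ((mem_sh (hF l) hb').mpr hc)
      · rw [if_neg hc]
        exact if_neg fun h => hc ((mem_sh (hF l) hb').mp h)
    rw [h1, h2]
    have h3 := hS (l, ⟨b + 1, by omega⟩)
    have h4 : FK60.bS (suppF α bad x) (labF α x) (expF α x) lnv E
        (l, ⟨b + 1, by omega⟩) / ρ - q.S (l, ⟨b + 1, by omega⟩) =
        (FK60.bS (suppF α bad x) (labF α x) (expF α x) lnv E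
        (l, ⟨b + 1, by omega⟩) - ρ * q.S (l, ⟨b + 1, by omega⟩)) / ρ := by
      field_simp
    rw [h4, abs_div, abs_of_pos hρ, div_le_iff₀ hρ]
    have : ε * ρ ≤ 2 * ε * ρ := by
      have := mul_pos hε hρ
      linarith
    linarith
  · intro l
    have h1 : (qc E α bad ρ x).J l = (FK60.bJ (suppF α bad x) (labF α x)
        (expF α x) lnv E (l, Fin.last E) + idxF α bad x l) / ρ := by
      have h2 := bs_eq_bS hE (suppF α bad x) (labF α x) (expF α x)
        (fun v => (expF α x v : ℝ) * lnv v) he l (E - 1) (by omega)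
      have h3 : (⟨E - 1 + 1, by omega⟩ : Fin (E + 1)) = Fin.last E := by
        ext
        simp only [Fin.val_last]
        omega
      rw [h3] at h2
      have h4 : FK60.bJ (suppF α bad x) (labF α x) (expF α x) lnv E
          (l, Fin.last E) = bs E (suppF α bad x) (labF α x) (expF α x)
          (fun v => (expF α x v : ℝ) * lnv v) l (E - 1) := by
        rw [h2]
        rfl
      rw [h4]
      rfl
    have h2 : (FK60.xc M fun l => sh (F l)).J l = 0 := rfl
    rw [h1, h2, sub_zero, abs_of_nonneg, div_le_iff₀ hρ]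
    · have h3 := (abs_lt.mp (hJ (l, Fin.last E))).2
      rw [hqJ, mul_zero, sub_zero] at h3
      have h4 := hI l
      linarith
    · apply div_nonneg _ hρ.le
      apply add_nonneg _ (idxF_nonneg α bad x l)
      exact Finset.sum_nonneg fun v _ => mul_nonneg (Nat.cast_nonneg _) (lnv_pos v).le

/-- Valid exceptional patterns. -/
def Vld (E : ℕ) (t : Fin (E + 2) × (Fin 3 → Finset (Fin (E + 1)))) : Prop :=
  2 ≤ (t.1 : ℕ) ∧ (∀ l, (t.2 l).card = (t.1 : ℕ)) ∧
    ∀ l, ∀ i : Fin (E + 1), i ∈ t.2 l → 2 ≤ (i : ℕ) ∧ (i : ℕ) < E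

/-- Counting the points near the exceptional configurations. -/
theorem count_exceptional {α : Fin 3 → K × K} {bad : Finset (HeightOneSpectrum (𝓞 K))}
    (hα : ∀ l m, l ≠ m → wedge (α l) (α m) ≠ 0) (hbad : GoodOff α bad) (L κ : ℝ) {E : ℕ}
    (hE : 2 ≤ E) : ∃ ε : ℝ, 0 < ε ∧ ∃ δ : ℝ, 0 < δ ∧
    δ ≤ 1 ∧ ∃ C : ℝ, 0 < C ∧ ∃ R₀ : ℝ, 1 ≤ R₀ ∧ ∀ (ρ : ℝ) (X : Finset (K × K)),
      R₀ ≤ ρ → (∀ x ∈ X, ∀ y ∈ X, x ≠ y → wedge x y ≠ 0) →
      (∀ x ∈ X, InW α bad κ L ρ x ∧ NearExc α bad E κ (L + 1) ε ρ x) →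
      (X.card : ℝ) ≤ C * Real.exp ((2 - δ) * ρ) := by
  classical
  have hE' : (2 : ℝ) ≤ E := by exact_mod_cast hE
  obtain ⟨δ, hδdef⟩ : ∃ δ : ℝ, δ = 1 / (2 * (E + 1)) := ⟨_, rfl⟩
  have hδ0 : 0 < δ := by rw [hδdef]; positivity
  have hδ1 : δ ≤ 1 := by
    rw [hδdef, div_le_one (by positivity)]
    linarith
  obtain ⟨η, hηdef⟩ : ∃ η : ℝ, η = δ / (1 + |L|) := ⟨_, rfl⟩
  have hη0 : 0 < η := by rw [hηdef]; positivity
  have hηK : η + η * L ≤ δ := by
    have h1 : η * (1 + |L|) = δ := by rw [hηdef]; field_simp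
    have h2 : η * L ≤ η * |L| := mul_le_mul_of_nonneg_left (le_abs_self L) hη0.le
    linarith
  have hcell : ∀ t : Fin (E + 2) × (Fin 3 → Finset (Fin (E + 1))), ∃ C δ' R₀ : ℝ, 0 < C ∧ 0 < δ' ∧
      1 ≤ R₀ ∧ (Vld E t →
      ∀ (β r : ℝ) (X : Finset (K × K)), R₀ ≤ r →
      (∀ x ∈ X, ∀ l, wedge x (α l) ≠ 0) →
      (∀ x ∈ X, ∀ y ∈ X, x ≠ y → wedge x y ≠ 0) →
      (∀ x ∈ X, hh x ≤ β) →
      (∀ x ∈ X, Close E δ' (qc E α bad r x) (FK60.xc (t.1 : ℕ) fun l => sh (t.2 l))) →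
      (X.card : ℝ) ≤ C * Real.exp (((2 * ((t.1 : ℕ) : ℝ) - 1) / ((t.1 : ℕ) : ℝ) + η) * r +
        η * β)) := by
    intro t
    by_cases h : Vld E t
    · obtain ⟨h1, h2, h3⟩ := h
      obtain ⟨C, δ', R₀, hC, hδ', hR₀, h4⟩ := cell_exc hα hbad (E := E) (M := (t.1 : ℕ))
        (fun l => sh (t.2 l)) h1 (fun l => by rw [card_sh (h3 l), h2]) (fun l b hb => by
          unfold sh at hb
          rw [Finset.mem_image] at hb
          obtain ⟨i, hi, hib⟩ := hb
          have := h3 l i hi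
          omega) η hη0
      exact ⟨C, δ', R₀, hC, hδ', hR₀, fun _ => h4⟩
    · exact ⟨1, 1, 1, one_pos, one_pos, le_rfl, fun h1 => absurd h1 h⟩
  choose C δ' R₀ hC hδ' hR₀ hcell using hcell
  obtain ⟨t₀, ht₀⟩ := Finite.exists_min δ'
  refine ⟨δ' t₀ / 2, by have := hδ' t₀; positivity, δ, hδ0, hδ1, ∑ t, C t, ?_, ∑ t, R₀ t, ?_, ?_⟩
  · exact Finset.sum_pos (fun t _ => hC t) Finset.univ_nonempty
  · exact (hR₀ t₀).trans (Finset.single_le_sum (f := R₀) (fun t _ => zero_le_one.trans (hR₀ t))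
      (Finset.mem_univ t₀))
  intro ρ X hρ hXX hX
  have hρt : ∀ t, R₀ t ≤ ρ := fun t => (Finset.single_le_sum (f := R₀)
    (fun t _ => zero_le_one.trans (hR₀ t)) (Finset.mem_univ t)).trans hρ
  have hρ0 : 0 < ρ := by
    have := (hR₀ t₀).trans (hρt t₀)
    linarith
  -- the classes
  obtain ⟨Y, hY⟩ : ∃ Y : Fin (E + 2) × (Fin 3 → Finset (Fin (E + 1))) → Finset (K × K),
    Y = fun t => X.filter fun x => Vld E t ∧
        Close E (δ' t₀) (qc E α bad ρ x) (FK60.xc (t.1 : ℕ) fun l => sh (t.2 l)) := ⟨_, rfl⟩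
  have hcov : X ⊆ Finset.univ.biUnion Y := by
    intro x hx
    obtain ⟨⟨hxw, hrad, hlow, hup⟩, q, hq, hexc, hS, hJ, hI⟩ := hX x hx
    obtain ⟨M, hM, F, hcard, hF, hdis, hqS, hsum, hy0, hqJ⟩ := hexc
    have hME : M < E + 2 := by
      have h1 := Finset.card_le_univ (F 0)
      rw [hcard, Fintype.card_fin] at h1
      omega
    rw [Finset.mem_biUnion]
    refine ⟨(⟨M, hME⟩, F), Finset.mem_univ _, ?_⟩
    rw [hY, Finset.mem_filter]
    refine ⟨hx, ⟨hM, hcard, hF⟩, ?_⟩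
    have h1 := close_of_near hE hρ0 hxw hF hqS hqJ hS hJ hI
    have h2 : 2 * (δ' t₀ / 2) = δ' t₀ := by ring
    rw [h2] at h1
    exact h1
  have hYc : ∀ t, ((Y t).card : ℝ) ≤ C t * Real.exp ((2 - δ) * ρ) := by
    intro t
    by_cases h : Vld E t
    · have h0 := h
      obtain ⟨h1, h2, h3⟩ := h
      have hYt : ∀ x ∈ Y t, x ∈ X ∧
          Close E (δ' t₀) (qc E α bad ρ x) (FK60.xc (t.1 : ℕ) fun l => sh (t.2 l)) := by
        intro x hx
        rw [hY, Finset.mem_filter] at hx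
        exact ⟨hx.1, hx.2.2⟩
      have h4 := hcell t h0 (L * ρ) ρ (Y t) (hρt t)
        (fun x hx => (hX x (hYt x hx).1).1.1)
        (fun x hx y hy => hXX x (hYt x hx).1 y (hYt y hy).1)
        (fun x hx => (hX x (hYt x hx).1).1.2.2.2)
        (fun x hx => by
          have h5 := (hYt x hx).2
          have h6 := ht₀ t
          exact ⟨fun l b hb => (h5.1 l b hb).trans h6, fun l => (h5.2 l).trans h6⟩)
      · refine h4.trans ?_
        apply mul_le_mul_of_nonneg_left _ (hC t).le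
        apply Real.exp_le_exp.mpr
        have hM0 : (0 : ℝ) < ((t.1 : ℕ) : ℝ) := by
          have : 0 < (t.1 : ℕ) := by omega
          exact_mod_cast this
        have hM1 : ((t.1 : ℕ) : ℝ) ≤ E + 1 := by
          have : (t.1 : ℕ) ≤ E + 1 := by omega
          exact_mod_cast this
        have h5 : (2 * ((t.1 : ℕ) : ℝ) - 1) / ((t.1 : ℕ) : ℝ) ≤ 2 - 2 * δ := by
          have h6 : (2 * ((t.1 : ℕ) : ℝ) - 1) / ((t.1 : ℕ) : ℝ) = 2 - 1 / ((t.1 : ℕ) : ℝ) := by
            field_simp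
          have h7 : 1 / ((E : ℝ) + 1) ≤ 1 / ((t.1 : ℕ) : ℝ) :=
            one_div_le_one_div_of_le hM0 hM1
          have h8 : 2 * δ = 1 / ((E : ℝ) + 1) := by
            rw [hδdef]
            field_simp
          rw [h6, h8]
          linarith
        have h9 : (2 * ((t.1 : ℕ) : ℝ) - 1) / ((t.1 : ℕ) : ℝ) + η + η * L ≤ 2 - δ := by linarith
        have h10 := mul_le_mul_of_nonneg_right h9 hρ0.le
        linarith
    · have : Y t = ∅ := by
        rw [hY]
        apply Finset.filter_false_of_mem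
        intro x _ h'
        exact h h'.1
      rw [this, Finset.card_empty, Nat.cast_zero]
      have := hC t
      positivity
  have h1 : (X.card : ℝ) ≤ ∑ t, ((Y t).card : ℝ) := by
    have h2 := (Finset.card_le_card hcov).trans Finset.card_biUnion_le
    exact_mod_cast h2
  refine h1.trans ((Finset.sum_le_sum fun t _ => hYc t).trans ?_)
  rw [← Finset.sum_mul]

/-- **The counting theorem** for three points: for `1 < κ` and every `L` there are fewer than
`exp ((2 - δ) ρ)` points of logarithmic height between `κ ρ` and `L ρ` whose primes have total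
weight at most `3 ρ`. -/
theorem count_all {α : Fin 3 → K × K} {bad : Finset (HeightOneSpectrum (𝓞 K))}
    (hα : ∀ l m, l ≠ m → wedge (α l) (α m) ≠ 0) (hbad : GoodOff α bad) {κ : ℝ} (hκ : 1 < κ)
    (L : ℝ) : ∃ δ : ℝ, 0 < δ ∧ δ ≤ 1 ∧ ∃ C : ℝ, 0 < C ∧
    ∃ R₀ : ℝ, 1 ≤ R₀ ∧ ∀ (ρ : ℝ) (X : Finset (K × K)), R₀ ≤ ρ →
      (∀ x ∈ X, ∀ y ∈ X, x ≠ y → wedge x y ≠ 0) → (∀ x ∈ X, InW α bad κ L ρ x) →
      (X.card : ℝ) ≤ C * Real.exp ((2 - δ) * ρ) := by
  classical
  obtain ⟨E, hE⟩ : ∃ E : ℕ, 16 * (L + 1) ^ 2 + 4 ≤ E := exists_nat_ge _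
  have hE2 : 2 ≤ E := by
    have h1 : (4 : ℝ) ≤ E := by nlinarith [sq_nonneg (L + 1)]
    have h2 : (2 : ℝ) ≤ E := by linarith
    exact_mod_cast h2
  obtain ⟨ε, hε, δ₁, hδ₁, hδ₁', C₁, hC₁, R₁, hR₁, h1⟩ := count_exceptional hα hbad L κ hE2
  obtain ⟨δ₂, hδ₂, hδ₂', C₂, hC₂, h2⟩ := count_ordinary hα hbad hκ hE ε hε
  refine ⟨min δ₁ δ₂, lt_min hδ₁ hδ₂, (min_le_left _ _).trans hδ₁', C₁ + C₂, by positivity,
    max R₁ (cF α), hR₁.trans (le_max_left _ _), ?_⟩
  intro ρ X hρ hXX hX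
  have hρ0 : 0 < ρ := lt_of_lt_of_le (cF_pos α) ((le_max_right _ _).trans hρ)
  have e1 := h1 ρ (X.filter fun x => NearExc α bad E κ (L + 1) ε ρ x)
    ((le_max_left _ _).trans hρ)
    (fun x hx y hy => hXX x (Finset.mem_filter.mp hx).1 y (Finset.mem_filter.mp hy).1)
    (fun x hx => ⟨hX x (Finset.mem_filter.mp hx).1, (Finset.mem_filter.mp hx).2⟩)
  have e2 := h2 ρ (X.filter fun x => ¬ NearExc α bad E κ (L + 1) ε ρ x)
    ((le_max_right _ _).trans hρ)
    (fun x hx y hy => hXX x (Finset.mem_filter.mp hx).1 y (Finset.mem_filter.mp hy).1)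
    (fun x hx => ⟨hX x (Finset.mem_filter.mp hx).1, (Finset.mem_filter.mp hx).2⟩)
  have e3 : (X.card : ℝ) = ((X.filter fun x => NearExc α bad E κ (L + 1) ε ρ x).card : ℝ) +
      ((X.filter fun x => ¬ NearExc α bad E κ (L + 1) ε ρ x).card : ℝ) := by
    rw [← Nat.cast_add, Finset.card_filter_add_card_filter_not]
  have e4 : Real.exp ((2 - δ₁) * ρ) ≤ Real.exp ((2 - min δ₁ δ₂) * ρ) := by
    apply Real.exp_le_exp.mpr
    apply mul_le_mul_of_nonneg_right _ hρ0.le
    linarith [min_le_left δ₁ δ₂]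
  have e5 : Real.exp ((2 - δ₂) * ρ) ≤ Real.exp ((2 - min δ₁ δ₂) * ρ) := by
    apply Real.exp_le_exp.mpr
    apply mul_le_mul_of_nonneg_right _ hρ0.le
    linarith [min_le_right δ₁ δ₂]
  rw [e3, add_mul]
  exact add_le_add (e1.trans (mul_le_mul_of_nonneg_left e4 hC₁.le))
    (e2.trans (mul_le_mul_of_nonneg_left e5 hC₂.le))

end Pool.Agent.Lib.CO60
end

section

/-!
From three points to `q` points.
-/

set_option autoImplicit false

open NumberField IsDedekindDomain Finset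

namespace Pool.Agent.Lib.CO60

open Pool.Agent.Lib.MP_4d5ce1_nt

variable {K : Type*} [Field K] [NumberField K] {q : ℕ}

/-- Three consecutive indices. -/
def tri (hq : 3 ≤ q) (a : Fin q) (i : Fin 3) : Fin q :=
  ⟨((a : ℕ) + (i : ℕ)) % q, Nat.mod_lt _ (by omega)⟩

lemma tri_ne (hq : 3 ≤ q) (a : Fin q) {i j : Fin 3} (h : i ≠ j) : tri hq a i ≠ tri hq a j := by
  intro he
  apply h
  have h1 : ((a : ℕ) + (i : ℕ)) % q = ((a : ℕ) + (j : ℕ)) % q := congrArg Fin.val he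
  have h2 : (i : ℕ) ≡ (j : ℕ) [MOD q] := Nat.ModEq.add_left_cancel' (a : ℕ) h1
  have h3 : (i : ℕ) % q = (j : ℕ) % q := h2
  rw [Nat.mod_eq_of_lt (by omega), Nat.mod_eq_of_lt (by omega)] at h3
  exact Fin.ext h3

lemma tri_bijective (hq : 3 ≤ q) (i : Fin 3) : Function.Bijective fun a => tri hq a i := by
  apply Finite.injective_iff_bijective.mp
  intro a b he
  have h1 : ((a : ℕ) + (i : ℕ)) % q = ((b : ℕ) + (i : ℕ)) % q := congrArg Fin.val he
  have h2 : (a : ℕ) ≡ (b : ℕ) [MOD q] := Nat.ModEq.add_right_cancel' (i : ℕ) h1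
  have h3 : (a : ℕ) % q = (b : ℕ) % q := h2
  rw [Nat.mod_eq_of_lt a.2, Nat.mod_eq_of_lt b.2] at h3
  exact Fin.ext h3

/-- Some three consecutive values have at most the average sum. -/
lemma exists_tri (hq : 3 ≤ q) (W : Fin q → ℝ) :
    ∃ a, (q : ℝ) * ∑ i, W (tri hq a i) ≤ 3 * ∑ l, W l := by
  have hne : (Finset.univ : Finset (Fin q)).Nonempty := ⟨⟨0, by omega⟩, Finset.mem_univ _⟩
  have h1 : ∑ a, (q : ℝ) * ∑ i, W (tri hq a i) ≤ ∑ _a : Fin q, 3 * ∑ l, W l := by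
    rw [← Finset.mul_sum, Finset.sum_comm]
    have h2 : ∀ i : Fin 3, ∑ a, W (tri hq a i) = ∑ l, W l := fun i =>
      Function.Bijective.sum_comp (tri_bijective hq i) W
    rw [Finset.sum_congr rfl fun i _ => h2 i]
    simp only [Finset.sum_const, Finset.card_univ, Fintype.card_fin, nsmul_eq_mul]
    push_cast
    exact le_of_eq (by ring)
  obtain ⟨a, _, ha⟩ := Finset.exists_le_of_sum_le hne h1
  exact ⟨a, ha⟩

lemma goodOff_tri {α : Fin q → K × K} {bad : Finset (HeightOneSpectrum (𝓞 K))}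
    (hbad : GoodOff α bad) (hq : 3 ≤ q) (a : Fin q) : GoodOff (fun i => α (tri hq a i)) bad :=
  fun v hv _ _ hlm => hbad v hv _ _ (tri_ne hq a hlm)

open Classical in
/-- The primes of three of the forms. -/
lemma sum_tri_le [NeZero q] {α : Fin q → K × K} {bad : Finset (HeightOneSpectrum (𝓞 K))}
    (hα : ∀ l m, l ≠ m → wedge (α l) (α m) ≠ 0) (hbad : GoodOff α bad) (hq : 3 ≤ q) {x : K × K}
    (hx : ∀ l, wedge x (α l) ≠ 0) (a : Fin q) :
    ∑ v ∈ suppF (fun i => α (tri hq a i)) bad x, lnv v ≤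
      ∑ i, ∑ v ∈ suppF α bad x, (if labF α x v = tri hq a i then lnv v else 0) := by
  have hx' : ∀ i : Fin 3, wedge x ((fun i => α (tri hq a i)) i) ≠ 0 := fun i => hx _
  have hlab : ∀ v ∈ suppF (fun i => α (tri hq a i)) bad x,
      v ∈ suppF α bad x ∧ ∃ i, labF α x v = tri hq a i := by
    intro v hv
    obtain ⟨h1, i, hi⟩ := (mem_suppF hx' v).mp hv
    have h2 : v ∈ suppF α bad x := (mem_suppF hx v).mpr ⟨h1, _, hi⟩
    refine ⟨h2, i, ?_⟩
    by_contra hne
    exact hi (good_unique hα hbad hx h1 hne (lab_spec hx h2))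
  have h0 : ∀ v, ∀ i : Fin 3, 0 ≤ (if labF α x v = tri hq a i then lnv v else 0) := by
    intro v i
    split_ifs
    · exact (lnv_pos v).le
    · exact le_rfl
  rw [Finset.sum_comm]
  calc ∑ v ∈ suppF (fun i => α (tri hq a i)) bad x, lnv v ≤
      ∑ v ∈ suppF (fun i => α (tri hq a i)) bad x,
        ∑ i, (if labF α x v = tri hq a i then lnv v else 0) := by
        apply Finset.sum_le_sum
        intro v hv
        obtain ⟨_, i, hi⟩ := hlab v hv
        have h1 := Finset.single_le_sum (f := fun i : Fin 3 =>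
          (if labF α x v = tri hq a i then lnv v else 0)) (fun i _ => h0 v i)
          (Finset.mem_univ i)
        simp only [if_pos hi] at h1
        exact h1
    _ ≤ _ := by
        apply Finset.sum_le_sum_of_subset_of_nonneg
        · intro v hv
          exact (hlab v hv).1
        · intro v _ _
          exact Finset.sum_nonneg fun i _ => h0 v i

/-- **The counting theorem** for `q` points. -/
theorem count_q (hq : 3 ≤ q) {α : Fin q → K × K}
    (hα : ∀ l m, l ≠ m → wedge (α l) (α m) ≠ 0) (S : Set (HeightOneSpectrum (𝓞 K)))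
    (hS : S.Finite) {κ : ℝ} (hκ : 1 < κ) (L : ℝ) : ∃ δ : ℝ, 0 < δ ∧ δ ≤ 1 ∧ ∃ C : ℝ, 0 < C ∧
    ∃ R₀ : ℝ, 1 ≤ R₀ ∧ ∀ (ρ : ℝ) (X : Finset (K × K)), R₀ ≤ ρ →
      (∀ x ∈ X, ∀ l, wedge x (α l) ≠ 0) →
      (∀ x ∈ X, ∀ y ∈ X, x ≠ y → wedge x y ≠ 0) →
      (∀ x ∈ X, (Module.finrank ℚ K : ℝ) * trunc S α x ≤ q * ρ) →
      (∀ x ∈ X, κ * ρ ≤ hh x) → (∀ x ∈ X, hh x ≤ L * ρ) →
      (X.card : ℝ) ≤ C * Real.exp ((2 - δ) * ρ) := by
  classical
  have hnz : NeZero q := ⟨by omega⟩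
  have hq0 : (0 : ℝ) < q := by
    have : 0 < q := by omega
    exact_mod_cast this
  obtain ⟨bad, hSb, hbad⟩ := exists_bad α hα S hS
  have h1 : ∀ a : Fin q, _ := fun a =>
    count_all (α := fun i => α (tri hq a i)) (bad := bad)
      (fun l m hlm => hα _ _ (tri_ne hq a hlm)) (goodOff_tri hbad hq a) hκ L
  choose δ hδ0 hδ1 C hC R hR hcount using h1
  have : Nonempty (Fin q) := ⟨⟨0, by omega⟩⟩
  obtain ⟨a₀, ha₀⟩ := Finite.exists_min δ
  refine ⟨δ a₀, hδ0 a₀, hδ1 a₀, ∑ a, C a, Finset.sum_pos (fun a _ => hC a)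
    Finset.univ_nonempty, ∑ a, R a, (hR a₀).trans (Finset.single_le_sum (f := R)
    (fun a _ => zero_le_one.trans (hR a)) (Finset.mem_univ a₀)), ?_⟩
  intro ρ X hρ hX hXX hT hlow hup
  have hρa : ∀ a, R a ≤ ρ := fun a => (Finset.single_le_sum (f := R)
    (fun a _ => zero_le_one.trans (hR a)) (Finset.mem_univ a)).trans hρ
  have hρ0 : 0 < ρ := zero_lt_one.trans_le ((hR a₀).trans (hρa a₀))
  obtain ⟨Y, hY⟩ : ∃ Y : Fin q → Finset (K × K), Y = fun a => X.filter fun x =>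
    ∑ v ∈ suppF (fun i => α (tri hq a i)) bad x, lnv v ≤ 3 * ρ := ⟨_, rfl⟩
  have hYm : ∀ a x, x ∈ Y a ↔ x ∈ X ∧
      ∑ v ∈ suppF (fun i => α (tri hq a i)) bad x, lnv v ≤ 3 * ρ := by
    intro a x
    rw [hY]
    exact Finset.mem_filter
  have hcov : X ⊆ Finset.univ.biUnion Y := by
    intro x hx
    obtain ⟨W, hW⟩ : ∃ W : Fin q → ℝ, W = fun l => ∑ v ∈ suppF α bad x,
      (if labF α x v = l then lnv v else 0) := ⟨_, rfl⟩
    have hW' : ∀ l, ∑ v ∈ suppF α bad x, (if labF α x v = l then lnv v else 0) = W l :=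
      fun l => by rw [hW]
    obtain ⟨a, ha⟩ := exists_tri hq W
    rw [Finset.mem_biUnion]
    refine ⟨a, Finset.mem_univ _, (hYm a x).mpr ⟨hx, ?_⟩⟩
    have e1 := sum_tri_le hα hbad hq (hX x hx) a
    simp only [hW'] at e1
    have e2 : ∑ l, W l = ∑ v ∈ suppF α bad x, lnv v := by
      rw [← Finset.sum_congr rfl fun l _ => hW' l, Finset.sum_comm]
      apply Finset.sum_congr rfl
      intro v _
      rw [Finset.sum_ite_eq]
      simp
    have e3 := trunc_ge α bad S hSb (hX x hx)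
    have e4 := hT x hx
    have e5 : (q : ℝ) * ∑ i, W (tri hq a i) ≤ q * (3 * ρ) := by
      rw [e2] at ha
      linarith
    exact e1.trans (le_of_mul_le_mul_left e5 hq0)
  have hYc : ∀ a, ((Y a).card : ℝ) ≤ C a * Real.exp ((2 - δ a₀) * ρ) := by
    intro a
    have e1 := hcount a ρ (Y a) (hρa a)
      (fun x hx y hy => hXX x ((hYm a x).mp hx).1 y ((hYm a y).mp hy).1)
      (fun x hx => ⟨fun i => hX x ((hYm a x).mp hx).1 _, ((hYm a x).mp hx).2,
        hlow x ((hYm a x).mp hx).1, hup x ((hYm a x).mp hx).1⟩)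
    refine e1.trans ?_
    apply mul_le_mul_of_nonneg_left _ (hC a).le
    apply Real.exp_le_exp.mpr
    apply mul_le_mul_of_nonneg_right _ hρ0.le
    linarith [ha₀ a]
  have e1 : (X.card : ℝ) ≤ ∑ a, ((Y a).card : ℝ) := by
    have h2 := (Finset.card_le_card hcov).trans Finset.card_biUnion_le
    exact_mod_cast h2
  refine e1.trans ((Finset.sum_le_sum fun a _ => hYc a).trans ?_)
  rw [← Finset.sum_mul]

end Pool.Agent.Lib.CO60
end

section

/-!
The points of the projective line ordered by the sum of the truncated local heights.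
-/

set_option autoImplicit false

open NumberField IsDedekindDomain Finset

namespace Pool.Agent.Lib.CO60

open Pool.Agent.Lib.MP_4d5ce1_nt

universe u

variable {K : Type u} [Field K] [NumberField K] {q : ℕ}

lemma truncm_one_eq (S : Set (HeightOneSpectrum (𝓞 K))) (α : Fin q → K × K) (x : K × K) :
    truncm 1 S α x = trunc S α x := by
  unfold truncm trunc
  simp only [Nat.cast_one, one_mul]

lemma finrank_real_pos : (0 : ℝ) < Module.finrank ℚ K := by exact_mod_cast finrank_pos'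

lemma hh_eq (x : K × K) : hh x = (Module.finrank ℚ K : ℝ) * ht x := by
  have h := finrank_real_pos (K := K)
  rw [ht_eq]
  field_simp

lemma ht_nonneg' (hq : 1 ≤ q) {α : Fin q → K × K} {x : K × K}
    (hx : ∀ l, wedge x (α l) ≠ 0) : 0 ≤ ht x := by
  rw [ht_eq]
  exact div_nonneg (hh_nonneg (wedge_left_ne (hx ⟨0, hq⟩))) finrank_real_pos.le

/-- Points of small height. -/
lemma bounded_height (hq : 2 ≤ q) {α : Fin q → K × K}
    (hα : ∀ l m, l ≠ m → wedge (α l) (α m) ≠ 0) (S : Set (HeightOneSpectrum (𝓞 K)))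
    (hS : S.Finite) (ε c H : ℝ) (hε : 0 ≤ ε) (hH : 0 ≤ H) :
    ∃ C : ℝ, ∀ X : Finset (K × K),
      (∀ x ∈ X, ∀ l, wedge x (α l) ≠ 0) →
      (∀ x ∈ X, ∀ y ∈ X, x ≠ y → wedge x y ≠ 0) →
      (∀ x ∈ X, ht x ≤ H) →
      (∀ x ∈ X, trunc S α x ≤ ((q : ℝ) - ε) * ht x + c) → (X.card : ℝ) ≤ C := by
  obtain ⟨C, hC⟩ := upper_boundm hq 1 le_rfl S hS α hα ε hε c 1 one_pos
  refine ⟨_, fun X hX hXX hht htr => hC (Real.exp H) (Real.one_le_exp hH) X hX hXX
    (fun x hx => Real.exp_le_exp.mpr (hht x hx)) (fun x hx => ?_)⟩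
  rw [truncm_one_eq]
  exact htr x hx

/-- The trivial bound: two of the forms have at most the average number of primes. -/
theorem trivial_q (hq : 3 ≤ q) {α : Fin q → K × K}
    (hα : ∀ l m, l ≠ m → wedge (α l) (α m) ≠ 0) (S : Set (HeightOneSpectrum (𝓞 K)))
    (hS : S.Finite) (η : ℝ) (hη : 0 < η) : ∃ C : ℝ, 0 < C ∧
    ∀ (β ρ : ℝ) (X : Finset (K × K)),
      (∀ x ∈ X, ∀ l, wedge x (α l) ≠ 0) →
      (∀ x ∈ X, ∀ y ∈ X, x ≠ y → wedge x y ≠ 0) →
      (∀ x ∈ X, (Module.finrank ℚ K : ℝ) * trunc S α x ≤ q * ρ) →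
      (∀ x ∈ X, hh x ≤ β) →
      (X.card : ℝ) ≤ C * Real.exp (2 * ρ + η * β) := by
  classical
  have hnz : NeZero q := ⟨by omega⟩
  have hq0 : (0 : ℝ) < q := by
    have : 0 < q := by omega
    exact_mod_cast this
  obtain ⟨bad, hSb, hbad⟩ := exists_bad α hα S hS
  have h01 : ∀ a : Fin q, tri hq a 0 ≠ tri hq a 1 := fun a => tri_ne hq a (by decide)
  have h1 : ∀ a : Fin q, _ := fun a =>
    master α hα bad hbad 1 le_rfl (tri hq a 0) (tri hq a 1) (h01 a) η hη
  choose C hC hcount using h1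
  have hne : (Finset.univ : Finset (Fin q)).Nonempty := ⟨⟨0, by omega⟩, Finset.mem_univ _⟩
  refine ⟨∑ a, C a, Finset.sum_pos (fun a _ => hC a) hne, ?_⟩
  intro β ρ X hX hXX hT hup
  obtain ⟨Wf, hWf⟩ : ∃ Wf : K × K → Fin q → Finset (HeightOneSpectrum (𝓞 K)),
    Wf = fun x a => (suppF α bad x).filter fun v =>
      labF α x v = tri hq a 0 ∨ labF α x v = tri hq a 1 := ⟨_, rfl⟩
  have hWm : ∀ x a v, v ∈ Wf x a ↔ v ∈ suppF α bad x ∧
      (labF α x v = tri hq a 0 ∨ labF α x v = tri hq a 1) := by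
    intro x a v
    rw [hWf]
    exact Finset.mem_filter
  obtain ⟨Y, hY⟩ : ∃ Y : Fin q → Finset (K × K), Y = fun a => X.filter fun x =>
    ∑ v ∈ Wf x a, lnv v ≤ 2 * ρ := ⟨_, rfl⟩
  have hYm : ∀ a x, x ∈ Y a ↔ x ∈ X ∧ ∑ v ∈ Wf x a, lnv v ≤ 2 * ρ := by
    intro a x
    rw [hY]
    exact Finset.mem_filter
  have hcov : X ⊆ Finset.univ.biUnion Y := by
    intro x hx
    obtain ⟨W, hW⟩ : ∃ W : Fin q → ℝ, W = fun l => ∑ v ∈ suppF α bad x,
      (if labF α x v = l then lnv v else 0) := ⟨_, rfl⟩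
    have hW' : ∀ l, ∑ v ∈ suppF α bad x, (if labF α x v = l then lnv v else 0) = W l :=
      fun l => by rw [hW]
    have e2 : ∑ l, W l = ∑ v ∈ suppF α bad x, lnv v := by
      rw [← Finset.sum_congr rfl fun l _ => hW' l, Finset.sum_comm]
      apply Finset.sum_congr rfl
      intro v _
      rw [Finset.sum_ite_eq]
      simp
    have e3 : ∑ a, (q : ℝ) * (W (tri hq a 0) + W (tri hq a 1)) ≤ ∑ _a : Fin q, 2 * ∑ l, W l := by
      rw [← Finset.mul_sum, Finset.sum_add_distrib,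
        Function.Bijective.sum_comp (tri_bijective hq 0) W,
        Function.Bijective.sum_comp (tri_bijective hq 1) W]
      simp only [Finset.sum_const, Finset.card_univ, Fintype.card_fin, nsmul_eq_mul]
      exact le_of_eq (by ring)
    obtain ⟨a, _, ha⟩ := Finset.exists_le_of_sum_le hne e3
    rw [Finset.mem_biUnion]
    refine ⟨a, Finset.mem_univ _, (hYm a x).mpr ⟨hx, ?_⟩⟩
    have e4 : ∑ v ∈ Wf x a, lnv v ≤ W (tri hq a 0) + W (tri hq a 1) := by
      rw [← hW', ← hW', ← Finset.sum_add_distrib, hWf, Finset.sum_filter]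
      apply Finset.sum_le_sum
      intro v _
      have := (lnv_pos v).le
      by_cases h0 : labF α x v = tri hq a 0
      · rw [if_pos (Or.inl h0), if_pos h0]
        split_ifs <;> linarith
      · by_cases h1 : labF α x v = tri hq a 1
        · rw [if_pos (Or.inr h1), if_neg h0, if_pos h1, zero_add]
        · rw [if_neg (by tauto), if_neg h0, if_neg h1, add_zero]
    have e5 := trunc_ge α bad S hSb (hX x hx)
    have e6 := hT x hx
    have e7 : (q : ℝ) * (W (tri hq a 0) + W (tri hq a 1)) ≤ q * (2 * ρ) := by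
      rw [e2] at ha
      linarith
    exact e4.trans (le_of_mul_le_mul_left e7 hq0)
  have hYc : ∀ a, ((Y a).card : ℝ) ≤ C a * Real.exp (2 * ρ + η * β) := by
    intro a
    apply hcount a β (2 * ρ) (Y a)
    · exact fun x hx => hX x ((hYm a x).mp hx).1
    · exact fun x hx y hy => hXX x ((hYm a x).mp hx).1 y ((hYm a y).mp hy).1
    · exact fun x hx => hup x ((hYm a x).mp hx).1
    · intro x hx
      refine ⟨Wf x a, fun v hv => ((hWm x a v).mp hv).1, fun v _ _ _ => one_dvd _, ?_⟩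
      have e1 := ((hYm a x).mp hx).2
      unfold toolCost
      rw [max_eq_left]
      · linarith
      · have key : ∀ u v w : ℝ, u = 0 → 0 ≤ v → 0 ≤ w → u - v - w ≤ 0 := by
          intro u v w hu hv hw
          linarith
        apply key
        · rw [Finset.sum_eq_zero, zero_div]
          intro v hv
          obtain ⟨h1, h2, h3⟩ := Finset.mem_filter.mp hv
          exact absurd ((hWm x a v).mpr ⟨h1, h3⟩) h2
        · exact Finset.sum_nonneg fun v _ => mul_nonneg (Nat.cast_nonneg _) (lnv_pos v).le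
        · exact Finset.sum_nonneg fun l _ => idxF_nonneg α bad x l
  have e1 : (X.card : ℝ) ≤ ∑ a, ((Y a).card : ℝ) := by
    have h2 := (Finset.card_le_card hcov).trans Finset.card_biUnion_le
    exact_mod_cast h2
  refine e1.trans ((Finset.sum_le_sum fun a _ => hYc a).trans ?_)
  rw [← Finset.sum_mul]

/-- **Upper bound.** -/
theorem upper (hq : 3 ≤ q) {α : Fin q → K × K}
    (hα : ∀ l m, l ≠ m → wedge (α l) (α m) ≠ 0) (S : Set (HeightOneSpectrum (𝓞 K)))
    (hS : S.Finite) (L ε c : ℝ) (hε : 0 < ε) :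
    ∃ δ : ℝ, 0 < δ ∧ ∃ C : ℝ, ∀ R : ℝ, 1 ≤ R → ∀ X : Finset (K × K),
      (∀ x ∈ X, ∀ l, wedge x (α l) ≠ 0) →
      (∀ x ∈ X, ∀ y ∈ X, x ≠ y → wedge x y ≠ 0) →
      (∀ x ∈ X, trunc S α x ≤ Real.log R) →
      (∀ x ∈ X, ht x ≤ L * (Real.log R + 1)) →
      (∀ x ∈ X, trunc S α x ≤ ((q : ℝ) - ε) * ht x + c) →
      (X.card : ℝ) ≤ C * R ^ ((2 / (q : ℝ) - δ) * (Module.finrank ℚ K : ℝ)) := by
  classical
  have hnz : NeZero q := ⟨by omega⟩
  have hd := finrank_real_pos (K := K)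
  obtain ⟨d, hdd⟩ : ∃ d : ℝ, d = (Module.finrank ℚ K : ℝ) := ⟨_, rfl⟩
  rw [← hdd] at hd ⊢
  have hq3 : (3 : ℝ) ≤ q := by exact_mod_cast hq
  have hq0 : (0 : ℝ) < q := by linarith
  obtain ⟨ε', hε'⟩ : ∃ ε' : ℝ, ε' = min ε 1 := ⟨_, rfl⟩
  have hε0 : 0 < ε' := by rw [hε']; exact lt_min hε one_pos
  have hε1 : ε' ≤ 1 := by rw [hε']; exact min_le_right _ _
  have hεε : ε' ≤ ε := by rw [hε']; exact min_le_left _ _
  -- the parameters
  obtain ⟨σ, hσ⟩ : ∃ σ : ℝ, σ = ε' / (4 * q) := ⟨_, rfl⟩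
  have hσ0 : 0 < σ := by rw [hσ]; positivity
  have hσq : q * σ = ε' / 4 := by rw [hσ]; field_simp
  have hσ1 : σ ≤ 1 := by
    rw [hσ, div_le_one (by positivity)]
    linarith
  obtain ⟨δ₁, hδ₁, hδ₁', C₁, hC₁, R₀, hR₀, hcount⟩ :=
    count_q hq hα S hS (κ := 1 + σ) (by linarith) (2 * |L| * q)
  obtain ⟨η, hη⟩ : ∃ η : ℝ, η = σ / (q * (|L| + 1)) := ⟨_, rfl⟩
  have hη0 : 0 < η := by rw [hη]; positivity
  have hηL : η * |L| ≤ σ / q := by
    rw [hη, div_mul_eq_mul_div, div_le_div_iff₀ (by positivity) hq0]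
    have h1 : σ * q * |L| ≤ σ * q * (|L| + 1) := by
      apply mul_le_mul_of_nonneg_left _ (by positivity)
      linarith
    linarith
  obtain ⟨C₂, hC₂, htriv⟩ := trivial_q hq hα S hS η hη0
  obtain ⟨y₁, hy₁⟩ : ∃ y₁ : ℝ, y₁ = max (2 * q * |c| / ε') (max (R₀ * q / d) 1) := ⟨_, rfl⟩
  have hy₁a : 2 * q * |c| / ε' ≤ y₁ := by rw [hy₁]; exact le_max_left _ _
  have hy₁b : R₀ * q / d ≤ y₁ := by
    rw [hy₁]; exact (le_max_left _ _).trans (le_max_right _ _)
  have hy₁c : (1 : ℝ) ≤ y₁ := by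
    rw [hy₁]; exact (le_max_right _ _).trans (le_max_right _ _)
  obtain ⟨C₃, hC₃⟩ := bounded_height (by omega) hα S hS ε' c (|L| * (y₁ + 1)) hε0.le
    (by positivity)
  obtain ⟨δ, hδ⟩ : ∃ δ : ℝ, δ = min δ₁ σ := ⟨_, rfl⟩
  have hδ0 : 0 < δ := by rw [hδ]; exact lt_min hδ₁ hσ0
  have hδa : δ ≤ δ₁ := by rw [hδ]; exact min_le_left _ _
  have hδb : δ ≤ σ := by rw [hδ]; exact min_le_right _ _
  refine ⟨δ / q, by positivity, |C₃| + (C₁ + C₂ * Real.exp (d * (η * |L|))), ?_⟩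
  intro R hR X hX hXX hT hht hexc
  have hR0 : 0 < R := by linarith
  obtain ⟨y, hy⟩ : ∃ y : ℝ, y = Real.log R := ⟨_, rfl⟩
  have hy0 : 0 ≤ y := by rw [hy]; exact Real.log_nonneg hR
  rw [← hy] at hT hht
  have hRθ : R ^ ((2 / (q : ℝ) - δ / q) * d) = Real.exp ((2 - δ) * (d / q * y)) := by
    rw [Real.rpow_def_of_pos hR0, ← hy]
    congr 1
    field_simp
  rw [hRθ]
  obtain ⟨P, hP⟩ : ∃ P : ℝ, P = Real.exp ((2 - δ) * (d / q * y)) := ⟨_, rfl⟩
  rw [← hP]
  have hP1 : 1 ≤ P := by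
    rw [hP]
    apply Real.one_le_exp
    apply mul_nonneg _ (by positivity)
    linarith
  have hhx : ∀ x, hh x = d * ht x := fun x => by rw [hdd]; exact hh_eq x
  have hht0 : ∀ x ∈ X, 0 ≤ ht x := fun x hx => ht_nonneg' (by omega) (hX x hx)
  have hexc' : ∀ x ∈ X, trunc S α x ≤ ((q : ℝ) - ε') * ht x + c := by
    intro x hx
    have h1 := hexc x hx
    have h2 : ε' * ht x ≤ ε * ht x := mul_le_mul_of_nonneg_right hεε (hht0 x hx)
    linarith
  have hhtL : ∀ x ∈ X, ht x ≤ |L| * (y + 1) := fun x hx =>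
    (hht x hx).trans (mul_le_mul_of_nonneg_right (le_abs_self L) (by linarith))
  have hL0 := abs_nonneg L
  have hC₃' : 0 ≤ |C₃| := abs_nonneg _
  have hE0 : 0 < Real.exp (d * (η * |L|)) := Real.exp_pos _
  by_cases hyy : y ≤ y₁
  · have h1 : (X.card : ℝ) ≤ C₃ := by
      apply hC₃ X hX hXX _ hexc'
      intro x hx
      refine (hhtL x hx).trans (mul_le_mul_of_nonneg_left (by linarith) hL0)
    have h2 : |C₃| ≤ |C₃| * P := le_mul_of_one_le_right hC₃' hP1
    have h3 : 0 ≤ (C₁ + C₂ * Real.exp (d * (η * |L|))) * P := by positivity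
    rw [add_mul]
    linarith [le_abs_self C₃]
  rw [not_le] at hyy
  have hy1 : 1 ≤ y := hy₁c.trans hyy.le
  -- the two classes
  have hA : ((X.filter fun x => (1 - σ) * y ≤ trunc S α x).card : ℝ) ≤ C₁ * P := by
    have h1 := hcount (d / q * y) (X.filter fun x => (1 - σ) * y ≤ trunc S α x) ?_
      (fun x hx => hX x (Finset.mem_filter.mp hx).1)
      (fun x hx z hz => hXX x (Finset.mem_filter.mp hx).1 z (Finset.mem_filter.mp hz).1)
      ?_ ?_ ?_
    · refine h1.trans ?_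
      apply mul_le_mul_of_nonneg_left _ hC₁.le
      rw [hP]
      apply Real.exp_le_exp.mpr
      apply mul_le_mul_of_nonneg_right _ (by positivity)
      linarith
    · have h2 : R₀ * q / d ≤ y := hy₁b.trans hyy.le
      rw [div_le_iff₀ hd] at h2
      rw [div_mul_eq_mul_div, le_div_iff₀ hq0]
      linarith
    · intro x hx
      rw [← hdd]
      have h2 := mul_le_mul_of_nonneg_left (hT x (Finset.mem_filter.mp hx).1) hd.le
      have h3 : (q : ℝ) * (d / q * y) = d * y := by field_simp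
      rw [h3]
      exact h2
    · intro x hx
      obtain ⟨hx1, hx2⟩ := Finset.mem_filter.mp hx
      rw [hhx]
      have h2 : (1 + σ) * (d / q * y) = d * ((1 + σ) * y / q) := by
        field_simp
      rw [h2]
      apply mul_le_mul_of_nonneg_left _ hd.le
      rw [div_le_iff₀ hq0]
      have h3 := hexc' x hx1
      have h5 : 2 * q * |c| / ε' ≤ y := hy₁a.trans hyy.le
      rw [div_le_iff₀ hε0] at h5
      have h6 : c ≤ |c| := le_abs_self c
      have h7 : (1 - σ) * y - |c| ≤ (q - ε') * ht x := by linarith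
      have h9 : 0 < (q : ℝ) - ε' := by linarith
      have h10 : (q - ε') * ((1 + σ) * y) ≤ q * ((1 - σ) * y - |c|) := by
        have h11 : 0 ≤ ε' * σ * y := by positivity
        have h12 : q * σ * y = ε' / 4 * y := by rw [hσq]
        linarith
      have h13 : q * ((1 - σ) * y - |c|) ≤ q * ((q - ε') * ht x) :=
        mul_le_mul_of_nonneg_left h7 hq0.le
      have h14 : (q - ε') * ((1 + σ) * y) ≤ (q - ε') * (ht x * q) := by linarith
      exact le_of_mul_le_mul_left h14 h9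
    · intro x hx
      rw [hhx]
      have h2 : 2 * |L| * q * (d / q * y) = d * (2 * |L| * y) := by
        field_simp
      rw [h2]
      apply mul_le_mul_of_nonneg_left _ hd.le
      have h3 := hhtL x (Finset.mem_filter.mp hx).1
      have h7 : |L| * (y + 1) ≤ |L| * (2 * y) :=
        mul_le_mul_of_nonneg_left (by linarith) hL0
      linarith
  have hB : ((X.filter fun x => ¬ (1 - σ) * y ≤ trunc S α x).card : ℝ) ≤
      C₂ * Real.exp (d * (η * |L|)) * P := by
    have h1 := htriv (d * (|L| * (y + 1))) (d / q * ((1 - σ) * y))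
      (X.filter fun x => ¬ (1 - σ) * y ≤ trunc S α x)
      (fun x hx => hX x (Finset.mem_filter.mp hx).1)
      (fun x hx z hz => hXX x (Finset.mem_filter.mp hx).1 z (Finset.mem_filter.mp hz).1)
      ?_ ?_
    · refine h1.trans ?_
      rw [mul_assoc]
      apply mul_le_mul_of_nonneg_left _ hC₂.le
      rw [hP, ← Real.exp_add]
      apply Real.exp_le_exp.mpr
      have h2 : 2 * (d / q * ((1 - σ) * y)) + η * (d * (|L| * (y + 1))) =
          d * (η * |L|) + ((2 - 2 * σ) * (d / q * y) + d * y * (η * |L|)) := by ring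
      rw [h2]
      have h3 : d * y * (η * |L|) ≤ d * y * (σ / q) :=
        mul_le_mul_of_nonneg_left hηL (by positivity)
      have h4 : d * y * (σ / q) = σ * (d / q * y) := by ring
      have h5 : (2 - 2 * σ + σ) * (d / q * y) ≤ (2 - δ) * (d / q * y) := by
        apply mul_le_mul_of_nonneg_right _ (by positivity)
        linarith
      linarith
    · intro x hx
      rw [← hdd]
      have h2 := (Finset.mem_filter.mp hx).2
      rw [not_le] at h2
      have h3 : (q : ℝ) * (d / q * ((1 - σ) * y)) = d * ((1 - σ) * y) := by field_simp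
      rw [h3]
      exact mul_le_mul_of_nonneg_left h2.le hd.le
    · intro x hx
      rw [hhx]
      exact mul_le_mul_of_nonneg_left (hhtL x (Finset.mem_filter.mp hx).1) hd.le
  have hXc : (X.card : ℝ) = ((X.filter fun x => (1 - σ) * y ≤ trunc S α x).card : ℝ) +
      ((X.filter fun x => ¬ (1 - σ) * y ≤ trunc S α x).card : ℝ) := by
    rw [← Nat.cast_add, Finset.card_filter_add_card_filter_not]
  have h3 : 0 ≤ |C₃| * P := by positivity
  rw [hXc]
  linarith

/-- **Lower bound.** -/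
theorem lower (hq : 3 ≤ q) {α : Fin q → K × K}
    (hα : ∀ l m, l ≠ m → wedge (α l) (α m) ≠ 0) (S : Set (HeightOneSpectrum (𝓞 K)))
    (η : ℝ) (hη : 0 < η) :
    ∃ R₀ : ℝ, ∀ R : ℝ, R₀ ≤ R → ∃ X : Finset (K × K),
      (∀ x ∈ X, ∀ l, wedge x (α l) ≠ 0) ∧
      (∀ x ∈ X, ∀ y ∈ X, x ≠ y → wedge x y ≠ 0) ∧
      (∀ x ∈ X, trunc S α x ≤ Real.log R) ∧
      (∀ x ∈ X, ht x ≤ Real.log R / q) ∧
      R ^ (2 / (q : ℝ) * (Module.finrank ℚ K : ℝ) - η) ≤ (X.card : ℝ) := by
  have hq3 : (3 : ℝ) ≤ q := by exact_mod_cast hq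
  have hq0 : (0 : ℝ) < q := by linarith
  obtain ⟨B₀, hB₀⟩ := lower_bound (by omega) S α hα 0 le_rfl one_pos 0 η hη
  obtain ⟨B₁, hB₁⟩ : ∃ B₁ : ℝ, B₁ = max B₀ 1 := ⟨_, rfl⟩
  have hB₁0 : B₀ ≤ B₁ := by rw [hB₁]; exact le_max_left _ _
  have hB₁1 : 1 ≤ B₁ := by rw [hB₁]; exact le_max_right _ _
  refine ⟨B₁ ^ (q : ℝ), ?_⟩
  intro R hR
  have hR1 : 1 ≤ R := (Real.one_le_rpow hB₁1 hq0.le).trans hR
  have hR0 : 0 < R := by linarith
  obtain ⟨B, hB⟩ : ∃ B : ℝ, B = R ^ (1 / (q : ℝ)) := ⟨_, rfl⟩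
  have hBB : B₁ ≤ B := by
    rw [hB]
    have h1 : B₁ = (B₁ ^ (q : ℝ)) ^ (1 / (q : ℝ)) := by
      rw [← Real.rpow_mul (by linarith), mul_one_div_cancel hq0.ne', Real.rpow_one]
    rw [h1]
    exact Real.rpow_le_rpow (by positivity) hR (by positivity)
  have hB1 : 1 ≤ B := hB₁1.trans hBB
  have hB0 : 0 < B := by linarith
  have hlogB : Real.log B = Real.log R / q := by
    rw [hB, Real.log_rpow hR0]
    field_simp
  obtain ⟨X, hX, hXX, hXB, hXT, hXc⟩ := hB₀ B (hB₁0.trans hBB)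
  have hlogx : ∀ x ∈ X, ht x ≤ Real.log R / q := fun x hx => by
    rw [← hlogB, Real.le_log_iff_exp_le hB0]
    exact hXB x hx
  refine ⟨X, hX, hXX, ?_, hlogx, ?_⟩
  · intro x hx
    have h2 := hXT x hx
    have h3 := mul_le_mul_of_nonneg_left (hlogx x hx) hq0.le
    rw [mul_div_cancel₀ _ hq0.ne'] at h3
    linarith
  · refine le_trans ?_ hXc
    rw [hB, ← Real.rpow_mul hR0.le]
    apply Real.rpow_le_rpow_of_exponent_le hR1
    have h7 : 1 / (q : ℝ) * ((2 - 0) * (Module.finrank ℚ K : ℝ) - η) =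
        2 / q * (Module.finrank ℚ K : ℝ) - η / q := by
      field_simp
      ring
    have h8 : η / q ≤ η := div_le_self hη.le (by linarith)
    rw [h7]
    linarith

end Pool.Agent.Lib.CO60
end
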